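import Pool.Agent.H500.R2.Stm
import Pool.Agent.H500.HC.All

set_option autoImplicit false
set_option linter.unusedSectionVars false

/-!
# Part 2 of project R2: conductor prime to `l` implies unramified, up to finitely many exceptions
-/

namespace Pool.Agent.H740.R2.Pig

open NumberField IsDedekindDomain Filter Topology Polynomial
open Pool.Agent.W401.Cheb (GK IsFrob IsInert dens)
open Pool.Agent.H500.HC (InRay em)
open Pool.Agent.H500.R2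
open Pool.Agent.H500.HC (coprime_of_not_mem inf_large all_Cls)

section

variable {K : Type} [Field K] [NumberField K]

/-- a character which is trivial at almost all Frobenius elements is trivial -/
theorem frob_triv (ψ : GK K →* ℂˣ) (ho : IsOpen (ψ.ker : Set (GK K))) {x : 𝓞 K} (hx : x ≠ 0)
    (h : ∀ v : HeightOneSpectrum (𝓞 K), x ∉ v.asIdeal → ∀ σ, IsFrob v σ → ψ σ = 1) (σ : GK K) :
    ψ σ = 1 := by
  have h1 := Pool.Agent.H500.MW.dens_sub (K := K) ψ.ker ho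
  have h2 := Pool.Agent.H500.MW.dens_sub (K := K) ⊤ (by rw [Subgroup.coe_top]; exact isOpen_univ)
  have h3 := Pool.Agent.H500.Kum.dens_fin (fun v : HeightOneSpectrum (𝓞 K) => x ∈ v.asIdeal)
    (Pool.Agent.H500.Kum.fin_mem hx)
  rw [Subgroup.index_top, Nat.cast_one, div_one] at h2
  have hle : (1 : ℝ) ≤ 1 / (ψ.ker.index : ℝ) + 0 := by
    refine le_of_tendsto_of_tendsto' h2 (h1.add h3) fun n => ?_
    refine le_trans (Pool.Agent.W528.Ord.dens_mono (Q := fun v =>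
      (∃ τ ∈ (ψ.ker : Set (GK K)), IsFrob v τ) ∨ x ∈ v.asIdeal) ?_ n)
      (Pool.Agent.W528.Ord.dens_or _ _ n)
    rintro v ⟨τ, -, hτ⟩
    by_cases hv : x ∈ v.asIdeal
    · exact Or.inr hv
    · exact Or.inl ⟨τ, h v hv τ hτ, hτ⟩
  rw [add_zero] at hle
  have hi : ψ.ker.index = 1 := by
    rcases Nat.eq_zero_or_pos ψ.ker.index with h0 | h0
    · rw [h0, Nat.cast_zero, div_zero] at hle
      linarith
    · have h4 : (0 : ℝ) < ψ.ker.index := by exact_mod_cast h0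
      rw [le_div_iff₀ h4, one_mul] at hle
      have h5 : ψ.ker.index ≤ 1 := by exact_mod_cast hle
      omega
  rw [Subgroup.index_eq_one] at hi
  have h6 : σ ∈ ψ.ker := by
    rw [hi]
    exact Subgroup.mem_top σ
  exact h6

/-- an ideal whose norm is prime to `l` is prime to `l` -/
theorem coprime_of_norm {𝔯 : Ideal (𝓞 K)} {l : ℕ} (hl : l.Prime) (h : ¬ l ∣ Ideal.absNorm 𝔯) :
    IsCoprime 𝔯 (Ideal.span {(l : 𝓞 K)}) := by
  have h1 : IsCoprime ((Ideal.absNorm 𝔯 : ℕ) : ℤ) (l : ℤ) :=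
    Nat.Coprime.isCoprime ((Nat.Prime.coprime_iff_not_dvd hl).2 h).symm
  obtain ⟨a, b, hab⟩ := h1
  rw [Ideal.isCoprime_iff_exists]
  refine ⟨(a : 𝓞 K) * ((Ideal.absNorm 𝔯 : ℕ) : 𝓞 K), Ideal.mul_mem_left _ _ (Ideal.absNorm_mem 𝔯),
    (b : 𝓞 K) * (l : 𝓞 K), Ideal.mul_mem_left _ _ (Ideal.mem_span_singleton_self _), ?_⟩
  exact_mod_cast congrArg (fun z : ℤ => (z : 𝓞 K)) hab

/-- an element prime to `l` is not in the places above `l` -/
theorem em_not_mem {E : Type} [Field E] [NumberField E] {lam : HeightOneSpectrum (𝓞 E)} {x : 𝓞 K}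
    (h : IsCoprime (Ideal.span {x}) (Ideal.span {((Ideal.absNorm lam.asIdeal : ℕ) : 𝓞 K)}))
    (σ : K →+* E) : em σ x ∉ lam.asIdeal := by
  intro hx
  rw [Ideal.isCoprime_span_singleton_iff] at h
  obtain ⟨a, b, hab⟩ := h
  have h1 := congrArg (RingOfIntegers.mapRingHom σ) hab
  rw [map_add, map_mul, map_mul, map_one, map_natCast] at h1
  apply lam.isPrime.ne_top
  rw [Ideal.eq_top_iff_one, ← h1]
  exact lam.asIdeal.add_mem (Ideal.mul_mem_left _ _ hx)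
    (Ideal.mul_mem_left _ _ (Ideal.absNorm_mem lam.asIdeal))

theorem finite_roots {h : ℕ} (hh : 0 < h) : {z : ℂ | z ^ h = 1}.Finite := by
  refine ((Polynomial.nthRoots h (1 : ℂ)).toFinset.finite_toSet).subset fun z hz => ?_
  rw [Finset.mem_coe, Multiset.mem_toFinset, Polynomial.mem_nthRoots hh]
  exact hz

/-- powers of numbers not in a prime -/
theorem pow_not_mem {v : HeightOneSpectrum (𝓞 K)} {N : ℕ} (h : (N : 𝓞 K) ∉ v.asIdeal) (M : ℕ) :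
    ((N ^ M : ℕ) : 𝓞 K) ∉ v.asIdeal := by
  intro h1
  rw [Nat.cast_pow] at h1
  exact h (v.isPrime.mem_of_pow_mem _ h1)

theorem mul_not_mem {v : HeightOneSpectrum (𝓞 K)} {N l : ℕ} (h : (N : 𝓞 K) ∉ v.asIdeal)
    (h' : (l : 𝓞 K) ∉ v.asIdeal) : ((N * l : ℕ) : 𝓞 K) ∉ v.asIdeal := by
  intro h1
  rw [Nat.cast_mul] at h1
  rcases v.isPrime.mem_or_mem h1 with h2 | h2
  · exact h h2
  · exact h' h2

end

theorem main : S_Pig := by
  intro K E _ _ _ _ N M m hN hm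
  by_contra hinf
  obtain ⟨h, R, hh, hR, hcls⟩ := all_Cls K (N ^ M) (pow_pos hN M)
  set S : Set (HeightOneSpectrum (𝓞 E)) := {lam | (Ideal.absNorm lam.asIdeal).Prime ∧
    ∃ (θ : GK K →* ℂˣ) (χ : Ideal (𝓞 K) →*₀ ℂ), IsOpen (θ.ker : Set (GK K)) ∧ (∀ σ, θ σ ^ m = 1) ∧
    UnrOut (N * Ideal.absNorm lam.asIdeal) θ.ker ∧ ¬ UnrOut N θ.ker ∧
    ChD (N * Ideal.absNorm lam.asIdeal) θ χ ∧
    ∀ x : 𝓞 K, InRay (N ^ M) x → (∀ σ : K →+* E, em σ x ∉ lam.asIdeal) →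
      χ (Ideal.span {x}) = 1} with hSdef
  have hS : S.Infinite := hinf
  set Z : Set (HeightOneSpectrum (𝓞 E)) :=
    ⋃ 𝔯 ∈ R, {lam | ((Ideal.absNorm 𝔯 : ℕ) : 𝓞 E) ∈ lam.asIdeal} with hZdef
  have hZ : Z.Finite := by
    refine Set.Finite.biUnion R.finite_toSet fun 𝔯 h𝔯 => ?_
    refine Pool.Agent.H500.Kum.fin_mem (Nat.cast_ne_zero.2 ?_)
    rw [Ne, Ideal.absNorm_eq_zero_iff]
    exact (hR 𝔯 h𝔯).1
  have hT : (S \ Z).Infinite := hS.sdiff hZ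
  have hTR : ∀ lam ∈ S \ Z, ∀ 𝔯 ∈ R,
      IsCoprime 𝔯 (Ideal.span {((Ideal.absNorm lam.asIdeal : ℕ) : 𝓞 K)}) := by
    intro lam hlam 𝔯 h𝔯
    refine coprime_of_norm hlam.1.1 fun hdvd => hlam.2 ?_
    obtain ⟨c, hc⟩ := hdvd
    refine Set.mem_biUnion h𝔯 ?_
    change ((Ideal.absNorm 𝔯 : ℕ) : 𝓞 E) ∈ lam.asIdeal
    rw [hc, Nat.cast_mul]
    exact Ideal.mul_mem_right _ _ (Ideal.absNorm_mem lam.asIdeal)
  have hex : ∀ lam : (S \ Z : Set (HeightOneSpectrum (𝓞 E))), ∃ (θ : GK K →* ℂˣ)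
      (χ : Ideal (𝓞 K) →*₀ ℂ), IsOpen (θ.ker : Set (GK K)) ∧ (∀ σ, θ σ ^ m = 1) ∧
      UnrOut (N * Ideal.absNorm lam.1.asIdeal) θ.ker ∧ ¬ UnrOut N θ.ker ∧
      ChD (N * Ideal.absNorm lam.1.asIdeal) θ χ ∧
      ∀ x : 𝓞 K, InRay (N ^ M) x → (∀ σ : K →+* E, em σ x ∉ lam.1.asIdeal) →
        χ (Ideal.span {x}) = 1 := fun lam => lam.2.1.2
  choose θ χ hopen _ hunr hnot hch hray using hex
  have hval : ∀ (lam : (S \ Z : Set (HeightOneSpectrum (𝓞 E)))) (𝔯 : R), χ lam 𝔯.1 ^ h = 1 := by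
    intro lam 𝔯
    obtain ⟨⟨x, hx, hxe⟩, -⟩ := hcls 𝔯.1 (hR 𝔯.1 𝔯.2).1 (hR 𝔯.1 𝔯.2).2
    rw [← map_pow, hxe]
    refine hray lam x hx (em_not_mem ?_)
    rw [← hxe]
    exact (hTR lam.1 lam.2 𝔯.1 𝔯.2).pow_left
  have hfin : Finite {z : ℂ // z ^ h = 1} := (finite_roots hh).to_subtype
  have hTi : Infinite (S \ Z : Set (HeightOneSpectrum (𝓞 E))) := hT.to_subtype
  obtain ⟨y, hy⟩ := Finite.exists_infinite_fiber
    (fun (lam : (S \ Z : Set (HeightOneSpectrum (𝓞 E)))) (𝔯 : R) =>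
      (⟨χ lam 𝔯.1, hval lam 𝔯⟩ : {z : ℂ // z ^ h = 1}))
  have hF := (Set.infinite_coe_iff.1 hy).image (f := Subtype.val) Subtype.val_injective.injOn
  obtain ⟨_, lam, hlam, rfl⟩ := hF.nonempty
  obtain ⟨_, ⟨lam', hlam', rfl⟩, hlt⟩ := (inf_large hF (Ideal.absNorm lam.1.asIdeal)).nonempty
  have hχ : ∀ 𝔯 ∈ R, χ lam 𝔯 = χ lam' 𝔯 := by
    intro 𝔯 h𝔯
    have e1 := congrFun hlam ⟨𝔯, h𝔯⟩
    have e2 := congrFun hlam' ⟨𝔯, h𝔯⟩
    exact (congrArg Subtype.val e1).trans (congrArg Subtype.val e2).symm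
  set l := Ideal.absNorm lam.1.asIdeal with hl
  set l' := Ideal.absNorm lam'.1.asIdeal with hl'
  have hlp : l.Prime := lam.2.1.1
  have hlp' : l'.Prime := lam'.2.1.1
  have hne : l ≠ l' := hlt.ne
  -- the values at the primes
  have hv1 : ∀ (μ : (S \ Z : Set (HeightOneSpectrum (𝓞 E)))) (v : HeightOneSpectrum (𝓞 K))
      (𝔯 : Ideal (𝓞 K)), 𝔯 ∈ R → ∀ x : 𝓞 K, InRay (N ^ M) x →
      v.asIdeal * 𝔯 ^ (h - 1) = Ideal.span {x} →
      ((Ideal.absNorm μ.1.asIdeal : ℕ) : 𝓞 K) ∉ v.asIdeal →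
      χ μ v.asIdeal * χ μ 𝔯 ^ (h - 1) = 1 := by
    intro μ v 𝔯 h𝔯 x hx hxe hμv
    rw [← map_pow, ← map_mul, hxe]
    refine hray μ x hx (em_not_mem ?_)
    rw [← hxe]
    exact (coprime_of_not_mem hμv).mul_left (hTR μ.1 μ.2 𝔯 h𝔯).pow_left
  have hv2 : ∀ v : HeightOneSpectrum (𝓞 K), (N : 𝓞 K) ∉ v.asIdeal → (l : 𝓞 K) ∉ v.asIdeal →
      (l' : 𝓞 K) ∉ v.asIdeal → χ lam v.asIdeal = χ lam' v.asIdeal := by
    intro v h1 h2 h3
    obtain ⟨-, 𝔯, h𝔯, x, hx, hxe⟩ := hcls v.asIdeal v.ne_bot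
      (coprime_of_not_mem (pow_not_mem h1 M))
    have e1 := hv1 lam v 𝔯 h𝔯 x hx hxe h2
    have e2 := hv1 lam' v 𝔯 h𝔯 x hx hxe h3
    rw [← hχ 𝔯 h𝔯] at e2
    have hc : χ lam 𝔯 ^ (h - 1) ≠ 0 := right_ne_zero_of_mul (e1 ▸ one_ne_zero)
    exact mul_right_cancel₀ hc (e1.trans e2.symm)
  -- the characters are equal
  have hθ : ∀ σ, θ lam σ = θ lam' σ := by
    have hker : IsOpen (((θ lam) / (θ lam')).ker : Set (GK K)) := by
      refine Subgroup.isOpen_mono (H₁ := (θ lam).ker ⊓ (θ lam').ker) ?_ ?_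
      · rintro σ ⟨h1, h2⟩
        have h1' : θ lam σ = 1 := h1
        have h2' : θ lam' σ = 1 := h2
        rw [MonoidHom.mem_ker, MonoidHom.div_apply, h1', h2', div_one]
      · exact (hopen lam).inter (hopen lam')
    have hx0 : ((N * (l * l') : ℕ) : 𝓞 K) ≠ 0 := Nat.cast_ne_zero.2
      (Nat.mul_ne_zero hN.ne' (Nat.mul_ne_zero hlp.ne_zero hlp'.ne_zero))
    have h1 := frob_triv ((θ lam) / (θ lam')) hker hx0 (by
      intro v hv σ hσ
      have hvN : (N : 𝓞 K) ∉ v.asIdeal := fun h => hv (by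
        rw [Nat.cast_mul]
        exact Ideal.mul_mem_right _ _ h)
      have hvl : (l : 𝓞 K) ∉ v.asIdeal := fun h => hv (by
        rw [Nat.cast_mul, Nat.cast_mul]
        exact Ideal.mul_mem_left _ _ (Ideal.mul_mem_right _ _ h))
      have hvl' : (l' : 𝓞 K) ∉ v.asIdeal := fun h => hv (by
        rw [Nat.cast_mul, Nat.cast_mul]
        exact Ideal.mul_mem_left _ _ (Ideal.mul_mem_left _ _ h))
      have e1 := (hch lam).frob v (mul_not_mem hvN hvl) σ hσ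
      have e2 := (hch lam').frob v (mul_not_mem hvN hvl') σ hσ
      rw [hv2 v hvN hvl hvl'] at e1
      have e3 : θ lam σ = θ lam' σ := Units.ext (e1.symm.trans e2)
      rw [MonoidHom.div_apply, e3, div_self'])
    intro σ
    have h2 := h1 σ
    rw [MonoidHom.div_apply, div_eq_one] at h2
    exact h2
  apply hnot lam
  intro v hvN σ hσ
  by_cases hvl : (l : 𝓞 K) ∈ v.asIdeal
  · have hvl' : (l' : 𝓞 K) ∉ v.asIdeal := by
      intro h1
      obtain ⟨a, b, hab⟩ : IsCoprime (l : ℤ) (l' : ℤ) :=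
        Nat.Coprime.isCoprime ((Nat.coprime_primes hlp hlp').2 hne)
      apply v.isPrime.ne_top
      rw [Ideal.eq_top_iff_one]
      have h2 : (a : 𝓞 K) * (l : 𝓞 K) + (b : 𝓞 K) * (l' : 𝓞 K) = 1 := by
        exact_mod_cast congrArg (fun z : ℤ => (z : 𝓞 K)) hab
      rw [← h2]
      exact v.asIdeal.add_mem (Ideal.mul_mem_left _ _ hvl) (Ideal.mul_mem_left _ _ h1)
    have h3 := hunr lam' v (mul_not_mem hvN hvl') σ hσ
    rw [MonoidHom.mem_ker] at h3 ⊢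
    rw [hθ, h3]
  · exact hunr lam v (mul_not_mem hvN hvl) σ hσ

end Pool.Agent.H740.R2.Pig
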